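import Pool.Agent.Helper75_SQS.SqB

/-!
# MP_5a6e11_an: MU, the measure
-/

set_option autoImplicit false

open MeasureTheory

namespace Pool.Agent.SQS.H75

open Classical in
theorem py_top (u : ℕ → Bool) (ζ : Z) : py (top u) ζ = true ↔ u ∈ V ζ := by
  change decide (u ∈ V ζ) = true ↔ u ∈ V ζ
  exact decide_eq_true_iff

theorem top_ok (u : ℕ → Bool) : Ok (top u) where
  uniq := fun m m' h _ => by simp [pa, top] at h
  rpt := fun m x h _ => by simp [pa, top] at h
  rcl := fun n v h => (py_top u (Z.cl n v)).2 h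
  rsq := fun ξ k h => Or.inl ((py_top u (Z.sq ξ)).2
    (Set.mem_iUnion.2 ⟨k, (py_top u (ξ k)).1 h⟩))

/-- the top point as a point of the space -/
noncomputable def topK (u : ℕ → Bool) : KS := ⟨top u, top_ok u⟩

theorem measurable_top : Measurable top := by
  refine measurable_pi_iff.2 fun i => ?_
  rcases i with m | i | ζ
  · exact measurable_const
  · exact measurable_pi_apply i
  · have : (fun u : ℕ → Bool => top u (Sum.inr (Sum.inr ζ))) =
        fun u => @decide (u ∈ V ζ) (Classical.propDecidable _) := rfl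
    rw [this]
    refine measurable_to_bool ?_
    have h : (fun u : ℕ → Bool => @decide (u ∈ V ζ) (Classical.propDecidable _)) ⁻¹' {true} =
        V ζ := by
      ext u; simp
    rw [h]
    exact measurableSet_V ζ

theorem measurable_topK : Measurable topK := measurable_top.subtype_mk

theorem mem_cs_topK (u : ℕ → Bool) (ζ : Z) (P : Finset M) : topK u ∈ cs ζ P ↔ u ∈ V ζ := by
  constructor
  · rintro (h | ⟨m, _, h⟩)
    · exact (py_top u ζ).1 h
    · simp [pa, topK, top] at h
  · intro h
    exact Or.inl ((py_top u ζ).2 h)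

theorem mu (htop : TopStmt) (hmeasf : MeasfStmt) : MuStmt := by
  classical
  have : CompactSpace KS := isCompact_iff_compactSpace.1 htop.isCompact
  have hmeas : ∀ f : C(KS, ℝ), Measurable fun u => f (topK u) := fun f =>
    (hmeasf Idx KS htop f).comp measurable_topK
  have hint : ∀ f : C(KS, ℝ), Integrable (fun u => f (topK u)) (coin ℕ) := fun f =>
    Integrable.of_bound (hmeas f).aestronglyMeasurable ‖f‖
      (Filter.Eventually.of_forall fun u => f.norm_coe_le_norm (topK u))
  let L : C(KS, ℝ) →ₗ[ℝ] ℝ :=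
    { toFun := fun f => ∫ u, f (topK u) ∂coin ℕ
      map_add' := fun f g => integral_add (hint f) (hint g)
      map_smul' := fun c f => by
        change ∫ u, c * f (topK u) ∂coin ℕ = c * ∫ u, f (topK u) ∂coin ℕ
        exact integral_const_mul c _ }
  let φ : C(KS, ℝ) →L[ℝ] ℝ := L.mkContinuous 1 fun f => by
    change ‖∫ u, f (topK u) ∂coin ℕ‖ ≤ 1 * ‖f‖
    refine (norm_integral_le_of_norm_le_const
      (Filter.Eventually.of_forall fun u => f.norm_coe_le_norm (topK u))).trans ?_
    simp
  have hφ : ∀ f, φ f = ∫ u, f (topK u) ∂coin ℕ := fun f => rfl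
  refine ⟨φ, fun f hf => ?_, ?_, fun ζ P => ?_⟩
  · rw [hφ]
    exact integral_nonneg fun u => hf (topK u)
  · rw [hφ]
    simp
  · rw [hφ]
    have : (fun u => ch ζ P (topK u)) = (V ζ).indicator (fun _ => (1 : ℝ)) := by
      funext u
      by_cases h : u ∈ V ζ
      · rw [ch_of_mem ((mem_cs_topK u ζ P).2 h), Set.indicator_of_mem h]
      · rw [ch_of_notMem (fun h' => h ((mem_cs_topK u ζ P).1 h')), Set.indicator_of_notMem h]
    rw [this, integral_indicator (measurableSet_V ζ)]
    simp [Measure.real]

end Pool.Agent.SQS.H75
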