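import Pool.Agent.Helper75_SQS.Sub

/-!
# MP_5a6e11_an: SQA, point evaluations
-/

set_option autoImplicit false

open MeasureTheory

namespace Pool.Agent.SQS.H75

theorem ch_of_mem {ζ : Z} {P : Finset M} {p : KS} (h : p ∈ cs ζ P) : ch ζ P p = 1 := by
  simp [ch, h]

theorem ch_of_notMem {ζ : Z} {P : Finset M} {p : KS} (h : p ∉ cs ζ P) : ch ζ P p = 0 := by
  simp [ch, h]

theorem sqa : SqAStmt := by
  intro x φ hφ
  refine ⟨fun f hf => ?_, ?_, fun ε hε => ?_⟩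
  · rw [hφ]; exact hf x
  · rw [hφ]; rfl
  · obtain ⟨n, hn⟩ := exists_pow_lt_of_lt_one hε (by norm_num : (1 / 2 : ℝ) < 1)
    refine ⟨Z.cl n (pu x.1), ∅, ?_, ?_⟩
    · rw [coin_cl]
      apply ENNReal.ofReal_le_ofReal
      rw [← one_div_pow]
      exact hn.le
    · have hx : x ∈ cs (Z.cl n (pu x.1)) ∅ :=
        Or.inl (x.2.rcl n (pu x.1) fun i _ => rfl)
      rw [hφ, ch_of_mem hx]
      linarith

end Pool.Agent.SQS.H75
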