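import Pool.Agent.Helper75_SQS.SqA

/-!
# MP_5a6e11_an: SQB, convexity
-/

set_option autoImplicit false

open MeasureTheory

namespace Pool.Agent.SQS.H75

theorem pos_mono {S : Type} [TopologicalSpace S] {φ : C(S, ℝ) →L[ℝ] ℝ} (h : Pos φ)
    {f g : C(S, ℝ)} (hfg : f ≤ g) : φ f ≤ φ g := by
  have := h (g - f) (sub_nonneg.2 hfg)
  rw [map_sub] at this
  linarith

/-- the finitely many elements of `M` of level less than `N` -/
noncomputable def low (N : ℕ) : Finset M :=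
  (Finset.range N).sigma fun _ => Finset.univ

theorem mem_low {N : ℕ} {m : M} : m ∈ low N ↔ m.1 < N := by
  simp [low]

theorem ch_le_ch {ζ ζ' : Z} {P P' : Finset M} (h : cs ζ P ⊆ cs ζ' P') : ch ζ P ≤ ch ζ' P' := by
  intro p
  change ch ζ P p ≤ ch ζ' P' p
  by_cases hp : p ∈ cs ζ P
  · rw [ch_of_mem hp, ch_of_mem (h hp)]
  · rw [ch_of_notMem hp]
    by_cases hp' : p ∈ cs ζ' P'
    · rw [ch_of_mem hp']; exact zero_le_one
    · rw [ch_of_notMem hp']

theorem cs_subset_sq {ξ : ℕ → Z} {k N : ℕ} (hN : ∀ n, N ≤ n → act ξ k n) {P P' : Finset M}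
    (hP : P ⊆ P') (hlow : low N ⊆ P') : cs (ξ k) P ⊆ cs (Z.sq ξ) P' := by
  rintro p (hp | ⟨m, hm, hp⟩)
  · rcases p.2.rsq ξ k hp with h | ⟨m, hm, hact⟩
    · exact Or.inl h
    · refine Or.inr ⟨m, hlow (mem_low.2 ?_), hm⟩
      by_contra hlt
      exact hact (hN _ (not_lt.1 hlt))
  · exact Or.inr ⟨m, hP hm, hp⟩

theorem sqb (hact : ActStmt) : SqBStmt := by
  classical
  rintro φ ⟨h1, h2, h3⟩ ψ ⟨k1, k2, k3⟩ a b ha hb hab
  refine ⟨fun f hf => ?_, ?_, fun ε hε => ?_⟩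
  · have e1 := h1 f hf
    have e2 := k1 f hf
    change 0 ≤ a * φ f + b * ψ f
    positivity
  · change a * φ 1 + b * ψ 1 = 1
    rw [h2, k2]; linarith
  · obtain ⟨ζ₁, P₁, hc1, hl1⟩ := h3 (ε / 2) (by positivity)
    obtain ⟨ζ₂, P₂, hc2, hl2⟩ := k3 (ε / 2) (by positivity)
    let ξ : ℕ → Z := fun k => if k = 0 then ζ₁ else if k = 1 then ζ₂ else Z.nil
    obtain ⟨N₁, hN1⟩ := hact ξ 0
    obtain ⟨N₂, hN2⟩ := hact ξ 1
    let P : Finset M := P₁ ∪ P₂ ∪ low N₁ ∪ low N₂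
    have hs1 : cs ζ₁ P₁ ⊆ cs (Z.sq ξ) P :=
      cs_subset_sq (ξ := ξ) (k := 0) hN1
        (fun m hm => by simp only [P, Finset.mem_union]; tauto)
        (fun m hm => by simp only [P, Finset.mem_union]; tauto)
    have hs2 : cs ζ₂ P₂ ⊆ cs (Z.sq ξ) P :=
      cs_subset_sq (ξ := ξ) (k := 1) hN2
        (fun m hm => by simp only [P, Finset.mem_union]; tauto)
        (fun m hm => by simp only [P, Finset.mem_union]; tauto)
    refine ⟨Z.sq ξ, P, ?_, ?_⟩
    · have hsub : V (Z.sq ξ) ⊆ V ζ₁ ∪ V ζ₂ := by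
        intro u hu
        obtain ⟨k, hk⟩ := Set.mem_iUnion.1 hu
        by_cases hk0 : k = 0
        · subst hk0; exact Or.inl hk
        · by_cases hk1 : k = 1
          · subst hk1; exact Or.inr hk
          · have : ξ k = Z.nil := by simp [ξ, hk0, hk1]
            rw [this] at hk
            exact absurd hk (Set.notMem_empty _)
      calc coin ℕ (V (Z.sq ξ)) ≤ coin ℕ (V ζ₁ ∪ V ζ₂) := measure_mono hsub
        _ ≤ coin ℕ (V ζ₁) + coin ℕ (V ζ₂) := measure_union_le _ _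
        _ ≤ ENNReal.ofReal (ε / 2) + ENNReal.ofReal (ε / 2) := add_le_add hc1 hc2
        _ = ENNReal.ofReal ε := by
            rw [← ENNReal.ofReal_add (by positivity) (by positivity), add_halves]
    · change 1 - ε ≤ a * φ (ch (Z.sq ξ) P) + b * ψ (ch (Z.sq ξ) P)
      have m1 := pos_mono h1 (ch_le_ch hs1)
      have m2 := pos_mono k1 (ch_le_ch hs2)
      have e1 : a * (1 - ε / 2) ≤ a * φ (ch (Z.sq ξ) P) :=
        mul_le_mul_of_nonneg_left (hl1.trans m1) ha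
      have e2 : b * (1 - ε / 2) ≤ b * ψ (ch (Z.sq ξ) P) :=
        mul_le_mul_of_nonneg_left (hl2.trans m2) hb
      have e3 : a * (1 - ε / 2) + b * (1 - ε / 2) = 1 - ε / 2 := by
        rw [← add_mul, hab, one_mul]
      linarith

end Pool.Agent.SQS.H75
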