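import Pool.Agent.Helper94_SQS.Stmts

/-!
# MP_5a6e11_an: SUB, the measure of the open sets
-/

set_option autoImplicit false

open MeasureTheory

namespace Pool.Agent.SQS.H75

theorem measurableSet_V (ζ : Z) : MeasurableSet (V ζ) := by
  induction ζ with
  | nil => exact MeasurableSet.empty
  | pt x => exact MeasurableSet.empty
  | cl n v =>
    have : V (Z.cl n v) = ⋂ i ∈ Finset.range n, (fun u : ℕ → Bool => u i) ⁻¹' {v i} := by
      ext u; simp [V]
    rw [this]
    exact Finset.measurableSet_biInter _ fun i _ =>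
      (measurable_pi_apply i) (MeasurableSet.of_discrete)
  | sq ξ ih => exact MeasurableSet.iUnion ih

theorem unif_singleton (b : Bool) : unif {b} = ENNReal.ofReal (1 / 2) := by
  unfold unif
  rw [PMF.toMeasure_apply_singleton _ _ (MeasurableSet.singleton b)]
  rw [PMF.uniformOfFintype_apply]
  simp [ENNReal.ofReal_inv_of_pos]

theorem coin_cl (n : ℕ) (v : ℕ → Bool) :
    coin ℕ (V (Z.cl n v)) = ENNReal.ofReal (1 / 2 ^ n) := by
  have h : V (Z.cl n v) = Set.pi (Finset.range n) (fun i => ({v i} : Set Bool)) := by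
    ext u; simp [V, Set.mem_pi]
  rw [h]
  unfold coin
  rw [Measure.infinitePi_pi _ (fun i _ => MeasurableSet.singleton (v i))]
  simp only [unif_singleton]
  rw [Finset.prod_const, Finset.card_range, ← ENNReal.ofReal_pow (by norm_num)]
  congr 1
  rw [one_div_pow]

theorem sub : SubStmt :=
  ⟨measurableSet_V, fun ξ => measure_iUnion_le _, coin_cl⟩

end Pool.Agent.SQS.H75
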